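import Pool.Agent.Helper53.BM.MH.Defs2
import Pool.Agent.Helper12.MH.Lip

set_option autoImplicit false

open Filter Topology

/-! MH-10: Newton iteration. -/

namespace Pool.Agent.Helper53.BM

universe u

variable {E : Type u} [NormedAddCommGroup E] [NormedSpace ℝ E]

/-- One Newton step. -/
lemma nw_step [CompleteSpace E] (h : MicroSp E)
    (hexp : ∀ D ∈ skewOps E, ∃ T : E ≃ₗᵢ[ℝ] E, ∀ z, T z = NormedSpace.exp D z)
    {z : E} (hz : ‖z‖ = 1) {M : ℝ}
    (hM : ∀ v : E, ‖v‖ = 1 → J z v = 0 → ∃ D ∈ skewOps E, ‖D‖ ≤ M ∧ ‖D z - v‖ ≤ 1 / 2) :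
    ∃ d₀ B : ℝ, 0 < d₀ ∧ 0 ≤ B ∧ ∀ x y : E, ‖x‖ = 1 → ‖y‖ = 1 → ‖x - y‖ ≤ d₀ →
      ∃ S : E ≃ₗᵢ[ℝ] E, ‖S x - y‖ ≤ 3 / 4 * ‖x - y‖ ∧ CloseToId S (B * ‖x - y‖) := by
  obtain ⟨L, hL0, hL⟩ := J_lipschitz h
  set M' : ℝ := max M 1 with hM'
  have hM1 : 1 ≤ M' := le_max_right _ _
  have hM0 : 0 < M' := by linarith
  -- derivative of the exponential
  have hder := hasFDerivAt_exp_zero (𝕂 := ℝ) (𝔸 := E →L[ℝ] E)
  rw [hasFDerivAt_iff_isLittleO_nhds_zero] at hder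
  have hη : (0 : ℝ) < 1 / (16 * M') := by positivity
  have hev := (Asymptotics.isLittleO_iff.1 hder) hη
  obtain ⟨δ, hδ, hball⟩ := Metric.eventually_nhds_iff_ball.1 hev
  have hexpD : ∀ D : E →L[ℝ] E, ‖D‖ < δ →
      ‖NormedSpace.exp D - 1 - D‖ ≤ 1 / (16 * M') * ‖D‖ := by
    intro D hD
    have := hball D (by simpa using hD)
    simpa [NormedSpace.exp_zero] using this
  -- the hypothesis at every point
  have hMx : ∀ x : E, ‖x‖ = 1 → ∀ v : E, ‖v‖ = 1 → J x v = 0 →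
      ∃ D ∈ skewOps E, ‖D‖ ≤ M' ∧ ‖D x - v‖ ≤ 1 / 2 := by
    intro x hx v hv hxv
    obtain ⟨T, hT⟩ := h.htr z x hz hx
    have h1 : J z (T.symm v) = 0 := by
      have h2 := J_map h.hmt T z
      rw [hT] at h2
      rw [h2] at hxv
      simpa using hxv
    obtain ⟨D, hD, hDM, hDz⟩ := hM (T.symm v) (by rw [LinearIsometryEquiv.norm_map, hv]) h1
    refine ⟨cj T D, ?_, ?_, ?_⟩
    · intro w
      have h2 := J_map h.hmt T (T.symm w)
      rw [T.apply_symm_apply] at h2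
      rw [h2, cj_apply]
      have h3 := hD (T.symm w)
      simpa using h3
    · refine ContinuousLinearMap.opNorm_le_bound _ hM0.le fun w => ?_
      rw [cj_apply, LinearIsometryEquiv.norm_map]
      refine (D.le_opNorm _).trans ?_
      rw [LinearIsometryEquiv.norm_map]
      gcongr
      exact hDM.trans (le_max_left _ _)
    · have h2 : T.symm x = z := by rw [← hT, T.symm_apply_apply]
      rw [cj_apply, h2]
      have h3 : T (D z) - v = T (D z - T.symm v) := by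
        rw [map_sub, T.apply_symm_apply]
      rw [h3, LinearIsometryEquiv.norm_map]
      exact hDz
  refine ⟨min (1 / (16 * L)) (δ / (4 * M')), 4 * M', by positivity, by positivity, ?_⟩
  intro x y hx hy hxy
  set d := ‖x - y‖ with hd
  have hd0 : 0 ≤ d := norm_nonneg _
  have hd1 : L * d ≤ 1 / 16 := by
    have := hxy.trans (min_le_left _ _)
    calc L * d ≤ L * (1 / (16 * L)) := by gcongr
      _ = 1 / 16 := by field_simp
  have hd2 : 4 * M' * d ≤ δ := by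
    have := hxy.trans (min_le_right _ _)
    calc 4 * M' * d ≤ 4 * M' * (δ / (4 * M')) := by gcongr
      _ = δ := by field_simp
  set v := y - x with hv
  have hvn : ‖v‖ = d := by rw [hv, hd, norm_sub_rev]
  have hJv : |J x v| ≤ L * d ^ 2 := by
    have h1 : J x v ≤ 0 := by
      have h2 := (dual_J x).apply_le y
      rw [hx, hy] at h2
      rw [hv, map_sub, J_apply_self, hx]
      linarith
    have h2 : 0 ≤ J y v := by
      have h2 := (dual_J y).apply_le x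
      rw [hx, hy] at h2
      rw [hv, map_sub, J_apply_self, hy]
      linarith
    have h3 : |(J y - J x) v| ≤ L * d ^ 2 := by
      have h4 := (J y - J x).le_opNorm v
      rw [Real.norm_eq_abs] at h4
      refine h4.trans ?_
      have h5 := hL y x
      rw [norm_sub_rev y x] at h5
      rw [hvn]
      calc ‖J y - J x‖ * d ≤ (L * d) * d := by gcongr
        _ = L * d ^ 2 := by ring
    rw [sub_apply] at h3
    rw [abs_le] at h3 ⊢
    constructor <;> linarith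
  set v' := v - J x v • x with hv'
  have hJv' : J x v' = 0 := by
    rw [hv', map_sub, map_smul, J_apply_self, hx]
    simp
  have hvv' : ‖v' - v‖ ≤ L * d ^ 2 := by
    have h1 : v' - v = -(J x v • x) := by rw [hv']; abel
    rw [h1, norm_neg, norm_smul, hx, mul_one, Real.norm_eq_abs]
    exact hJv
  have hLd2 : L * d ^ 2 ≤ 1 / 16 * d := by nlinarith
  have hv'n : ‖v'‖ ≤ 17 / 16 * d := by
    have h1 : v' = v + (v' - v) := by abel
    rw [h1]
    refine (norm_add_le _ _).trans ?_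
    rw [hvn]
    linarith
  -- the skew operator
  obtain ⟨D, hD, hDn, hDx⟩ : ∃ D ∈ skewOps E, ‖D‖ ≤ M' * ‖v'‖ ∧ ‖D x - v'‖ ≤ 1 / 2 * ‖v'‖ := by
    by_cases h0 : v' = 0
    · refine ⟨0, Submodule.zero_mem _, ?_, ?_⟩ <;> simp [h0]
    · have hn : 0 < ‖v'‖ := norm_pos_iff.2 h0
      obtain ⟨D, hD, hDn, hDx⟩ := hMx x hx (‖v'‖⁻¹ • v')
        (by rw [norm_smul, norm_inv, norm_norm, inv_mul_cancel₀ hn.ne'])
        (by rw [map_smul, hJv', smul_zero])
      refine ⟨‖v'‖ • D, Submodule.smul_mem _ _ hD, ?_, ?_⟩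
      · rw [norm_smul, norm_norm, mul_comm]
        gcongr
      · have h1 : (‖v'‖ • D) x - v' = ‖v'‖ • (D x - ‖v'‖⁻¹ • v') := by
          rw [smul_sub, smul_smul, mul_inv_cancel₀ hn.ne', one_smul, smul_apply]
        rw [h1, norm_smul, norm_norm, mul_comm]
        gcongr
  have hDn' : ‖D‖ ≤ 17 / 16 * M' * d := by
    calc ‖D‖ ≤ M' * ‖v'‖ := hDn
      _ ≤ M' * (17 / 16 * d) := by gcongr
      _ = _ := by ring
  obtain ⟨S, hS⟩ := hexp D hD
  by_cases hd00 : d = 0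
  · refine ⟨LinearIsometryEquiv.refl ℝ E, ?_, ?_⟩
    · rw [LinearIsometryEquiv.coe_refl, id, ← hd, hd00]
      norm_num
    · intro w
      simp [hd00]
  have hdpos : 0 < d := lt_of_le_of_ne hd0 (Ne.symm hd00)
  have hDδ : ‖D‖ < δ := by
    refine lt_of_le_of_lt hDn' (lt_of_lt_of_le ?_ hd2)
    nlinarith [mul_pos hM0 hdpos]
  have hE := hexpD D hDδ
  have hE2 : ‖NormedSpace.exp D - 1 - D‖ ≤ 17 / 256 * d := by
    calc ‖NormedSpace.exp D - 1 - D‖ ≤ 1 / (16 * M') * ‖D‖ := hE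
      _ ≤ 1 / (16 * M') * (17 / 16 * M' * d) := by gcongr
      _ = 17 / 256 * d := by field_simp; norm_num
  refine ⟨S, ?_, ?_⟩
  · have h1 : S x - y = (NormedSpace.exp D - 1 - D) x + (D x - v') + (v' - v) := by
      rw [hS, sub_apply, sub_apply, one_apply_eq_self, hv]
      abel
    rw [h1]
    refine (norm_add₃_le).trans ?_
    have h2 := (NormedSpace.exp D - 1 - D).le_opNorm x
    rw [hx, mul_one] at h2
    nlinarith
  · intro w
    have h1 : S w - w = (NormedSpace.exp D - 1 - D) w + D w := by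
      rw [hS, sub_apply, sub_apply, one_apply_eq_self]
      abel
    rw [h1]
    refine (norm_add_le _ _).trans ?_
    have h2 := (NormedSpace.exp D - 1 - D).le_opNorm w
    have h3 := D.le_opNorm w
    have h4 : ‖NormedSpace.exp D - 1 - D‖ + ‖D‖ ≤ 4 * M' * d := by
      nlinarith [mul_pos hM0 hdpos]
    calc ‖(NormedSpace.exp D - 1 - D) w‖ + ‖D w‖
        ≤ (‖NormedSpace.exp D - 1 - D‖ + ‖D‖) * ‖w‖ := by rw [add_mul]; linarith
      _ ≤ 4 * M' * d * ‖w‖ := by gcongr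

/-- The iteration. -/
lemma nw_iter {d₀ B : ℝ} (hB : 0 ≤ B)
    (hstep : ∀ x y : E, ‖x‖ = 1 → ‖y‖ = 1 → ‖x - y‖ ≤ d₀ →
      ∃ S : E ≃ₗᵢ[ℝ] E, ‖S x - y‖ ≤ 3 / 4 * ‖x - y‖ ∧ CloseToId S (B * ‖x - y‖))
    {x y : E} (hx : ‖x‖ = 1) (hy : ‖y‖ = 1) (hxy : ‖x - y‖ ≤ d₀) (n : ℕ) :
    ∃ T : E ≃ₗᵢ[ℝ] E, ‖T x - y‖ ≤ (3 / 4) ^ n * ‖x - y‖ ∧
      CloseToId T (4 * B * (1 - (3 / 4) ^ n) * ‖x - y‖) := by
  induction n with
  | zero =>
    refine ⟨LinearIsometryEquiv.refl ℝ E, by simp, ?_⟩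
    intro w
    simp
  | succ n ih =>
    obtain ⟨T, hT1, hT2⟩ := ih
    have hd : ‖T x - y‖ ≤ d₀ := by
      refine (hT1.trans ?_).trans hxy
      exact mul_le_of_le_one_left (norm_nonneg _) (pow_le_one₀ (by norm_num) (by norm_num))
    obtain ⟨S, hS1, hS2⟩ := hstep (T x) y (by rw [LinearIsometryEquiv.norm_map, hx]) hy hd
    refine ⟨T.trans S, ?_, ?_⟩
    · rw [LinearIsometryEquiv.trans_apply, pow_succ]
      linarith
    · intro w
      rw [LinearIsometryEquiv.trans_apply]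
      have h1 : S (T w) - w = (S (T w) - T w) + (T w - w) := by abel
      rw [h1]
      refine (norm_add_le _ _).trans ?_
      have h2 := hS2 (T w)
      rw [LinearIsometryEquiv.norm_map] at h2
      have h3 := hT2 w
      have h4 : B * ‖T x - y‖ * ‖w‖ ≤ B * ((3 / 4) ^ n * ‖x - y‖) * ‖w‖ := by gcongr
      rw [pow_succ]
      nlinarith

lemma newton_of_exp [CompleteSpace E] (h : MicroSp E)
    (hexp : ∀ D ∈ skewOps E, ∃ T : E ≃ₗᵢ[ℝ] E, ∀ z, T z = NormedSpace.exp D z)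
    {z : E} (hz : ‖z‖ = 1) {M : ℝ}
    (hM : ∀ v : E, ‖v‖ = 1 → J z v = 0 → ∃ D ∈ skewOps E, ‖D‖ ≤ M ∧ ‖D z - v‖ ≤ 1 / 2) :
    ∃ C : ℝ, ∀ x y : E, ‖x‖ = 1 → ‖y‖ = 1 → ∀ ε : ℝ, 0 < ε → ∃ T : E ≃ₗᵢ[ℝ] E,
      ‖T x - y‖ ≤ ε ∧ ‖T (T x) - (2 : ℝ) • T x + x‖ ≤ C * ‖x - y‖ ^ 2 + ε := by
  obtain ⟨d₀, B, hd₀, hB, hstep⟩ := nw_step h hexp hz hM
  refine ⟨16 * B ^ 2 + 4 / d₀ ^ 2, ?_⟩
  intro x y hx hy ε hε
  set d := ‖x - y‖ with hd
  have hd0 : 0 ≤ d := norm_nonneg _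
  by_cases hxy : d ≤ d₀
  · obtain ⟨n, hn⟩ := exists_pow_lt_of_lt_one (show (0 : ℝ) < ε / (d + 1) by positivity)
      (show (3 / 4 : ℝ) < 1 by norm_num)
    obtain ⟨T, hT1, hT2⟩ := nw_iter hB hstep hx hy hxy n
    rw [← hd] at hT1 hT2
    have hp : (0 : ℝ) ≤ (3 / 4) ^ n := by positivity
    refine ⟨T, ?_, ?_⟩
    · refine hT1.trans ?_
      calc (3 / 4 : ℝ) ^ n * d ≤ ε / (d + 1) * (d + 1) := by
            gcongr
            linarith
        _ = ε := by field_simp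
    · have h0 : T (T x) - (2 : ℝ) • T x + x = T (T x - x) - (T x - x) := by
        rw [map_sub, two_smul]
        abel
      have hcl : ∀ w : E, ‖T w - w‖ ≤ 4 * B * d * ‖w‖ := by
        intro w
        refine (hT2 w).trans ?_
        have h5 : 0 ≤ 4 * B * (3 / 4) ^ n * d * ‖w‖ := by positivity
        linarith
      have h1 := hcl (T x - x)
      have h2 := hcl x
      rw [hx, mul_one] at h2
      rw [h0]
      have h3 : 4 * B * d * ‖T x - x‖ ≤ 4 * B * d * (4 * B * d) := by gcongr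
      have h4 : 0 ≤ 4 / d₀ ^ 2 * d ^ 2 := by positivity
      nlinarith
  · push Not at hxy
    obtain ⟨T, hT⟩ := h.htr x y hx hy
    refine ⟨T, by rw [hT, sub_self, norm_zero]; exact hε.le, ?_⟩
    have h1 : ‖T (T x) - (2 : ℝ) • T x + x‖ ≤ 4 := by
      refine (norm_add_le _ _).trans ?_
      have h2 := norm_sub_le (T (T x)) ((2 : ℝ) • T x)
      rw [norm_smul, LinearIsometryEquiv.norm_map, LinearIsometryEquiv.norm_map, hx] at h2
      rw [hx]
      norm_num at h2 ⊢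
      linarith
    have h3 : 4 ≤ 4 / d₀ ^ 2 * d ^ 2 := by
      rw [div_mul_eq_mul_div, le_div_iff₀ (by positivity)]
      have : d₀ ^ 2 ≤ d ^ 2 := by gcongr
      linarith
    have h4 : 0 ≤ 16 * B ^ 2 * d ^ 2 := by positivity
    nlinarith

end Pool.Agent.Helper53.BM
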